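import Mathlib
import Pool.Agent.TH297.UD.A
set_option autoImplicit false

namespace Pool.Agent.Results.MP_0f943d_al.UndistortedCyclic

open Pool.Agent.TH297.UD

theorem exists_word {G : Type} [Group G] {k : ℕ} (f : Fin k → G)
    (hf : Submonoid.closure (Set.range f) = ⊤) (g : G) :
    ∃ w : List (Fin k), (w.map f).prod = g := by
  have hg : g ∈ Submonoid.closure (Set.range f) := by rw [hf]; trivial
  induction hg using Submonoid.closure_induction with
  | mem x hx =>
    obtain ⟨i, rfl⟩ := hx
    exact ⟨[i], by simp⟩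
  | one => exact ⟨[], by simp⟩
  | mul x y _ _ ihx ihy =>
    obtain ⟨a, rfl⟩ := ihx
    obtain ⟨b, rfl⟩ := ihy
    exact ⟨a ++ b, by simp⟩

theorem exists_inv {G : Type} [Group G] {k : ℕ} (f : Fin k → G)
    (hf : Submonoid.closure (Set.range f) = ⊤) :
    ∃ c : ℕ, ∀ w : List (Fin k), ∃ w' : List (Fin k),
      (w'.map f).prod = ((w.map f).prod)⁻¹ ∧ w'.length ≤ c * w.length := by
  choose iv hiv using fun i => exists_word f hf (f i)⁻¹
  refine ⟨∑ i, (iv i).length, fun w => ?_⟩
  induction w with
  | nil => exact ⟨[], by simp, by simp⟩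
  | cons i w ih =>
    obtain ⟨w', h1, h2⟩ := ih
    refine ⟨w' ++ iv i, ?_, ?_⟩
    · rw [List.map_append, List.prod_append, h1, hiv, List.map_cons, List.prod_cons, mul_inv_rev]
    · rw [List.length_append, List.length_cons, Nat.mul_add, Nat.mul_one]
      exact Nat.add_le_add h2
        (Finset.single_le_sum (f := fun i => (iv i).length) (fun _ _ => Nat.zero_le _)
          (Finset.mem_univ i))

/-- In a group with context-free co-word problem the cyclic subgroup generated by an element of
infinite order is undistorted: if the element has length `n`, then its `N`-th power has length at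
least `|N| / 2 ^ (A * n ^ 2)`, with a constant `A` of the group. -/
theorem result :
    ∀ (G : Type) [Group G] (k : ℕ) (f : Fin k → G), Submonoid.closure (Set.range f) = ⊤ →
      Language.IsContextFree
        ({w : List (Fin k) | (w.map f).prod ≠ 1} : Language (Fin k)) →
      ∃ A : ℕ, ∀ w : List (Fin k), ¬ IsOfFinOrder (w.map f).prod →
        ∀ (N : ℤ) (u : List (Fin k)), (u.map f).prod = (w.map f).prod ^ N →
          |N| ≤ 2 ^ (A * w.length ^ 2) * u.length := by
  intro G _ k f hf h
  obtain ⟨B, hB⟩ := power_bound f h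
  obtain ⟨c, hc⟩ := exists_inv f hf
  refine ⟨B * (c ^ 2 + 1), fun w hw N u hu => ?_⟩
  have key : N.natAbs ≤ 2 ^ (B * (c ^ 2 + 1) * w.length ^ 2) * u.length := by
    rcases le_total 0 N with h0 | h0
    · obtain ⟨w', h1, h2⟩ := hc w
      have h3 := hB w' (by rw [h1, isOfFinOrder_inv_iff]; exact hw) N.natAbs u (by
        rw [hu, h1]
        have e : (N.natAbs : ℤ) = N := Int.natAbs_of_nonneg h0
        rw [← zpow_natCast, e, inv_zpow, inv_mul_cancel])
      refine h3.trans (Nat.mul_le_mul_right _ (Nat.pow_le_pow_right (by norm_num) ?_))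
      calc B * w'.length ^ 2 ≤ B * (c * w.length) ^ 2 :=
            Nat.mul_le_mul_left _ (Nat.pow_le_pow_left h2 2)
        _ = B * c ^ 2 * w.length ^ 2 := by ring
        _ ≤ B * (c ^ 2 + 1) * w.length ^ 2 :=
            Nat.mul_le_mul_right _ (Nat.mul_le_mul_left _ (by omega))
    · have h3 := hB w hw N.natAbs u (by
        rw [hu]
        have e : (N.natAbs : ℤ) = -N := Int.ofNat_natAbs_of_nonpos h0
        rw [← zpow_natCast, e, ← zpow_add, neg_add_cancel, zpow_zero])
      refine h3.trans (Nat.mul_le_mul_right _ (Nat.pow_le_pow_right (by norm_num) ?_))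
      calc B * w.length ^ 2 = B * 1 * w.length ^ 2 := by ring
        _ ≤ B * (c ^ 2 + 1) * w.length ^ 2 :=
            Nat.mul_le_mul_right _ (Nat.mul_le_mul_left _ (by omega))
  rw [Int.abs_eq_natAbs]
  exact_mod_cast key

end Pool.Agent.Results.MP_0f943d_al.UndistortedCyclic
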